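import Mathlib

/-! Explicit polynomials over `F_9` for a space `L_{15,2}` in characteristic 3, with their
identities.  `J` stands for a square root of `-1`. -/

namespace Pool.Agent.Zk56.LS

open Polynomial

variable {k : Type*} [Field k]

/-- the first polynomial of degree 5 -/
noncomputable def pA (J : k[X]) : k[X] := X ^ 5 + (2 + 2 * J) * X ^ 3 + 2 * X ^ 2 + 2 * X + (1 + J)
/-- the second polynomial of degree 5 -/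
noncomputable def pB (J : k[X]) : k[X] := J * X ^ 5 + X ^ 2 + (1 + 2 * J) * X

/-- numerator -/
noncomputable def Na (J : k[X]) : k[X] := X ^ 9 + (1 + J) * X ^ 7 + (2 + 2 * J) * X ^ 6 + (1 + J) * X ^ 4 + X ^ 3 + J * X + J
/-- denominator -/
noncomputable def Da (J : k[X]) : k[X] := X ^ 6 + (1 + J) * X ^ 4 + (2 * J) * X ^ 3 + (2 + 2 * J) * X

theorem fac_a {J : k[X]} (hJ : J ^ 2 + 1 = 0) (h3 : (3 : k[X]) = 0) :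
    pB J * (pA J ^ 2 - pB J ^ 2) = (2 * J) * (Na J * Da J) := by
  unfold pA pB Na Da
  linear_combination (X - 2 * J * X + 5 * X ^ 2 - 4 * J * X ^ 2 - 4 * X ^ 3 - 12 * J * X ^ 3 + 2 * X ^ 4 + 2 * J * X ^ 4 + 12 * X ^ 5 - 5 * J * X ^ 5 + 18 * X ^ 6 - 12 * X ^ 7 - 16 * J * X ^ 7 - 12 * X ^ 8 - 2 * J * X ^ 8 + 8 * X ^ 9 - 8 * J * X ^ 9 - 8 * X ^ 10 - 8 * J * X ^ 10 + X ^ 11 - 4 * J * X ^ 11 - 11 * X ^ 12 - J * X ^ 15) * hJ + (2 * J * X + 6 * J * X ^ 2 + 5 * X ^ 3 + 10 * J * X ^ 3 + 5 * X ^ 4 + 6 * J * X ^ 4 + 3 * X ^ 5 + 12 * J * X ^ 5 + X ^ 6 + 14 * J * X ^ 6 + 10 * X ^ 7 + 15 * J * X ^ 7 + 8 * X ^ 8 + 6 * J * X ^ 8 + 9 * J * X ^ 9 + 4 * X ^ 10 + 4 * J * X ^ 10 + 4 * J * X ^ 11 + 4 * X ^ 12) * h3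

theorem wr_a {J : k[X]} (hJ : J ^ 2 + 1 = 0) (h3 : (3 : k[X]) = 0)
    (hd : derivative J = 0) :
    derivative (Na J) * Da J - Na J * derivative (Da J) = 2 + J := by
  have h2 : derivative (2 : k[X]) = 0 := by simp
  have e1 : derivative (Na J) = J + 3 * X ^ 2 + 4 * X ^ 3 + 4 * J * X ^ 3 + 12 * X ^ 5 + 12 * J * X ^ 5 + 7 * X ^ 6 + 7 * J * X ^ 6 + 9 * X ^ 8 := by
    unfold Na
    simp only [derivative_add, derivative_mul, derivative_X_pow, derivative_X, derivative_one, h2, hd,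
      map_natCast]
    push_cast
    ring
  have e2 : derivative (Da J) = 2 + 2 * J + 6 * J * X ^ 2 + 4 * X ^ 3 + 4 * J * X ^ 3 + 6 * X ^ 5 := by
    unfold Da
    simp only [derivative_add, derivative_mul, derivative_X_pow, derivative_X, derivative_one, h2, hd,
      map_natCast]
    push_cast
    ring
  rw [e1, e2]
  unfold Na Da
  linear_combination (-2 - 6 * X ^ 2 - 8 * X ^ 3 + 3 * X ^ 4 + 22 * X ^ 6 + 12 * X ^ 7 + 12 * X ^ 8 + 12 * X ^ 9 + 3 * X ^ 10) * hJ + (-J + 2 * X ^ 2 + 4 * X ^ 3 + X ^ 4 + 3 * J * X ^ 4 - 2 * J * X ^ 5 - X ^ 6 + 12 * J * X ^ 6 + 8 * J * X ^ 7 - 5 * X ^ 8 + 4 * J * X ^ 8 + 2 * X ^ 9 + 10 * J * X ^ 9 + 2 * J * X ^ 10 + 4 * J * X ^ 11 + 2 * X ^ 12 + 2 * J * X ^ 12 + X ^ 14) * h3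

/-- numerator -/
noncomputable def Nb (J : k[X]) : k[X] := X ^ 12 + (2 + 2 * J) * X ^ 10 + (2 + J) * X ^ 9 + (2 + J) * X ^ 6 + 2 * X ^ 4 + 2 * X ^ 3 + (2 * J) * X + 1
/-- denominator -/
noncomputable def Db (J : k[X]) : k[X] := X ^ 3 + (2 + 2 * J) * X + (2 + J)

theorem fac_b {J : k[X]} (hJ : J ^ 2 + 1 = 0) (h3 : (3 : k[X]) = 0) :
    pA J * (pA J ^ 2 - pB J ^ 2) = (2) * (Nb J * Db J) := by
  unfold pA pB Nb Db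
  linear_combination (3 + J + 2 * X - 10 * X ^ 2 - 4 * J * X ^ 2 + 6 * X ^ 3 + 6 * J * X ^ 3 + 16 * X ^ 4 + 11 * X ^ 5 - 8 * J * X ^ 5 + 20 * X ^ 6 + 8 * J * X ^ 6 + 6 * X ^ 7 + 28 * X ^ 8 + 10 * X ^ 9 - 13 * X ^ 10 - J * X ^ 10 - 2 * X ^ 11 - 2 * X ^ 12 - 2 * X ^ 13 - 2 * J * X ^ 13 - X ^ 15) * hJ + (-2 + 9 * X ^ 2 + 5 * J * X ^ 2 + 6 * X ^ 3 + 6 * J * X ^ 3 + 7 * X ^ 4 + 9 * J * X ^ 4 + 16 * X ^ 5 + 20 * J * X ^ 5 + 14 * X ^ 6 + 22 * J * X ^ 6 + 17 * X ^ 7 + 20 * J * X ^ 7 + 10 * X ^ 8 + 20 * J * X ^ 8 + 7 * X ^ 9 + 10 * J * X ^ 9 + 8 * X ^ 10 + 4 * X ^ 11 + 2 * J * X ^ 11 - 2 * J * X ^ 12) * h3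

theorem wr_b {J : k[X]} (hJ : J ^ 2 + 1 = 0) (h3 : (3 : k[X]) = 0)
    (hd : derivative J = 0) :
    derivative (Nb J) * Db J - Nb J * derivative (Db J) = 2 + 2 * J := by
  have h2 : derivative (2 : k[X]) = 0 := by simp
  have e1 : derivative (Nb J) = 2 * J + 6 * X ^ 2 + 8 * X ^ 3 + 12 * X ^ 5 + 6 * J * X ^ 5 + 18 * X ^ 8 + 9 * J * X ^ 8 + 20 * X ^ 9 + 20 * J * X ^ 9 + 12 * X ^ 11 := by
    unfold Nb
    simp only [derivative_add, derivative_mul, derivative_X_pow, derivative_X, derivative_one, h2, hd,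
      map_natCast]
    push_cast
    ring
  have e2 : derivative (Db J) = 2 + 2 * J + 3 * X ^ 2 := by
    unfold Db
    simp only [derivative_add, derivative_mul, derivative_X_pow, derivative_X, derivative_one, h2, hd,
      map_natCast]
    push_cast
    ring
  rw [e1, e2]
  unfold Nb Db
  linear_combination (2 + 6 * X ^ 5 + 10 * X ^ 6 + 9 * X ^ 8 + 36 * X ^ 9 + 36 * X ^ 10) * hJ + (-2 + 3 * X ^ 2 + 2 * J * X ^ 2 + 8 * X ^ 3 + 4 * J * X ^ 3 + 4 * X ^ 4 + 4 * J * X ^ 4 + 6 * X ^ 5 + 8 * J * X ^ 5 + 4 * X ^ 6 + 10 * J * X ^ 6 + 11 * X ^ 8 + 13 * J * X ^ 8 + 12 * X ^ 9 + 36 * J * X ^ 9 + 24 * J * X ^ 10 + 12 * X ^ 11 + 6 * J * X ^ 11 + 12 * X ^ 12 + 12 * J * X ^ 12 + 3 * X ^ 14) * h3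

/-- numerator -/
noncomputable def Ns (J : k[X]) : k[X] := X ^ 6 + (1 + 2 * J) * X ^ 4 + (2 * J) * X ^ 3 + (1 + 2 * J) * X + (2 * J)
/-- denominator -/
noncomputable def Ds (J : k[X]) : k[X] := X ^ 9 + (1 + 2 * J) * X ^ 7 + (1 + 2 * J) * X ^ 6 + (2 + J) * X ^ 4 + (1 + 2 * J) * X ^ 3 + (2 * J) * X

theorem fac_s {J : k[X]} (hJ : J ^ 2 + 1 = 0) (h3 : (3 : k[X]) = 0) :
    pA J * pB J * (pA J - pB J) = (1 + J) * (Ns J * Ds J) := by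
  unfold pA pB Ns Ds
  linear_combination (X - 2 * J * X - 5 * X ^ 2 - 8 * J * X ^ 2 - 10 * X ^ 3 - 4 * J * X ^ 3 - 6 * X ^ 4 - 2 * J * X ^ 4 - 7 * X ^ 5 - 13 * J * X ^ 5 - 2 * X ^ 6 - 12 * J * X ^ 6 - 20 * X ^ 7 - 6 * J * X ^ 7 - 11 * X ^ 8 - 2 * J * X ^ 8 - 6 * X ^ 9 - 12 * J * X ^ 9 - 12 * X ^ 10 - 9 * J * X ^ 10 - 6 * X ^ 11 - 6 * X ^ 12 - 2 * X ^ 13 - 2 * J * X ^ 13 - X ^ 15) * hJ + (2 * J * X + 3 * X ^ 2 + 5 * J * X ^ 2 + 6 * X ^ 3 + 4 * J * X ^ 3 + 6 * X ^ 4 + 4 * J * X ^ 4 + 7 * X ^ 5 + 9 * J * X ^ 5 + 6 * X ^ 6 + 12 * J * X ^ 6 + 11 * X ^ 7 + 6 * J * X ^ 7 + 6 * X ^ 8 + 2 * J * X ^ 8 + 4 * X ^ 9 + 7 * J * X ^ 9 + 4 * X ^ 10 + 2 * J * X ^ 10 + 2 * X ^ 11 + J * X ^ 11 + 2 * X ^ 12 - J * X ^ 12) * h3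

theorem wr_s {J : k[X]} (hJ : J ^ 2 + 1 = 0) (h3 : (3 : k[X]) = 0)
    (hd : derivative J = 0) :
    derivative (Ns J) * Ds J - Ns J * derivative (Ds J) = 1 := by
  have h2 : derivative (2 : k[X]) = 0 := by simp
  have e1 : derivative (Ns J) = 1 + 2 * J + 6 * J * X ^ 2 + 4 * X ^ 3 + 8 * J * X ^ 3 + 6 * X ^ 5 := by
    unfold Ns
    simp only [derivative_add, derivative_mul, derivative_X_pow, derivative_X, derivative_one, h2, hd,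
      map_natCast]
    push_cast
    ring
  have e2 : derivative (Ds J) = 2 * J + 3 * X ^ 2 + 6 * J * X ^ 2 + 8 * X ^ 3 + 4 * J * X ^ 3 + 6 * X ^ 5 + 12 * J * X ^ 5 + 7 * X ^ 6 + 14 * J * X ^ 6 + 9 * X ^ 8 := by
    unfold Ds
    simp only [derivative_add, derivative_mul, derivative_X_pow, derivative_X, derivative_one, h2, hd,
      map_natCast]
    push_cast
    ring
  rw [e1, e2]
  unfold Ns Ds
  linear_combination (-4 - 12 * X ^ 2 - 8 * X ^ 3 + 6 * X ^ 4 - 24 * X ^ 5 - 46 * X ^ 6 - 24 * X ^ 7 - 12 * X ^ 8 - 24 * X ^ 9 - 12 * X ^ 10) * hJ + (1 + 4 * X ^ 2 - 2 * J * X ^ 2 + 2 * X ^ 3 - 8 * J * X ^ 3 - 4 * X ^ 4 - 3 * J * X ^ 4 + 8 * X ^ 5 - 4 * J * X ^ 5 + 14 * X ^ 6 - 8 * J * X ^ 6 + 6 * X ^ 7 - 8 * J * X ^ 7 + 5 * X ^ 8 - 6 * J * X ^ 8 + 6 * X ^ 9 - 10 * J * X ^ 9 + 3 * X ^ 10 - 4 * J * X ^ 10 - 4 * J *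 X ^ 11 - 2 * X ^ 12 - 4 * J * X ^ 12 - X ^ 14) * h3

/-- numerator -/
noncomputable def Nd (J : k[X]) : k[X] := X ^ 6 + (2 + J) * X ^ 4 + (2 * J) * X ^ 3 + J * X + (1 + 2 * J)
/-- denominator -/
noncomputable def Dd (J : k[X]) : k[X] := X ^ 9 + (2 + J) * X ^ 7 + 2 * X ^ 6 + (2 * J) * X ^ 4 + (1 + 2 * J) * X ^ 3 + (1 + 2 * J) * X

theorem fac_d {J : k[X]} (hJ : J ^ 2 + 1 = 0) (h3 : (3 : k[X]) = 0) :
    pA J * pB J * (pA J + pB J) = (2 + J) * (Nd J * Dd J) := by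
  unfold pA pB Nd Dd
  linear_combination (-7 * X - 2 * J * X + 12 * X ^ 2 + 2 * J * X ^ 2 + 8 * X ^ 3 - 4 * J * X ^ 3 + 3 * X ^ 4 - 2 * J * X ^ 4 + 25 * X ^ 5 + 5 * J * X ^ 5 + 24 * X ^ 6 + 8 * X ^ 7 + 8 * X ^ 8 + J * X ^ 8 + 20 * X ^ 9 + 8 * J * X ^ 9 + 2 * X ^ 10 - J * X ^ 10 + 8 * X ^ 11 + 3 * J * X ^ 11 + 4 * X ^ 13 + 2 * J * X ^ 13 + X ^ 15) * hJ + (2 * X - J * X - 2 * X ^ 2 + 5 * J * X ^ 2 + 2 * X ^ 3 + 11 * J * X ^ 3 + 8 * X ^ 4 + 15 * J * X ^ 4 + X ^ 5 + 14 * J * X ^ 5 + 14 * J * X ^ 6 + X ^ 7 + 7 * J * X ^ 7 + 2 * X ^ 8 + 9 * J * X ^ 8 - 5 * X ^ 9 + 2 * J * X ^ 9 - 2 * X ^ 10 - J * X ^ 10 - 5 * X ^ 11 - J * X ^ 11 - X ^ 12 - 4 * X ^ 13 - 2 * J * X ^ 13 - X ^ 15) * h3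

theorem wr_d {J : k[X]} (hJ : J ^ 2 + 1 = 0) (h3 : (3 : k[X]) = 0)
    (hd : derivative J = 0) :
    derivative (Nd J) * Dd J - Nd J * derivative (Dd J) = 2 * J := by
  have h2 : derivative (2 : k[X]) = 0 := by simp
  have e1 : derivative (Nd J) = J + 6 * J * X ^ 2 + 8 * X ^ 3 + 4 * J * X ^ 3 + 6 * X ^ 5 := by
    unfold Nd
    simp only [derivative_add, derivative_mul, derivative_X_pow, derivative_X, derivative_one, h2, hd,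
      map_natCast]
    push_cast
    ring
  have e2 : derivative (Dd J) = 1 + 2 * J + 3 * X ^ 2 + 6 * J * X ^ 2 + 8 * J * X ^ 3 + 12 * X ^ 5 + 14 * X ^ 6 + 7 * J * X ^ 6 + 9 * X ^ 8 := by
    unfold Dd
    simp only [derivative_add, derivative_mul, derivative_X_pow, derivative_X, derivative_one, h2, hd,
      map_natCast]
    push_cast
    ring
  rw [e1, e2]
  unfold Nd Dd
  linear_combination (-4 - 12 * X ^ 2 - 12 * X ^ 3 - 16 * X ^ 6 - 6 * X ^ 7 - 8 * X ^ 9 - 3 * X ^ 10) * hJ + (1 - 2 * J + 3 * X ^ 2 - 4 * J * X ^ 2 + 4 * X ^ 3 - 2 * J * X ^ 3 + 2 * X ^ 4 + 5 * J * X ^ 4 - 4 * X ^ 5 - 8 * J * X ^ 5 + 3 * X ^ 6 - 10 * J * X ^ 6 + 2 * X ^ 7 - 4 * J * X ^ 7 - 2 * X ^ 8 - 8 * J * X ^ 8 - 8 * J * X ^ 9 - 3 * X ^ 10 - 4 * J * X ^ 10 - 4 * J * X ^ 11 - 4 * X ^ 12 - 2 * J * X ^ 12 - X ^ 14) * h3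

end Pool.Agent.Zk56.LS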