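import Pool.Agent.Zk56.LS.Data

/-! Degrees. -/

namespace Pool.Agent.Zk56.LS

open Polynomial

variable {k : Type*} [Field k]

theorem deg_Na (i : k) : (Na (C i)).natDegree = 9 := by unfold Na; compute_degree!
theorem deg_Da (i : k) : (Da (C i)).natDegree = 6 := by unfold Da; compute_degree!
theorem deg_Nb (i : k) : (Nb (C i)).natDegree = 12 := by unfold Nb; compute_degree!
theorem deg_Db (i : k) : (Db (C i)).natDegree = 3 := by unfold Db; compute_degree!
theorem deg_Ns (i : k) : (Ns (C i)).natDegree = 6 := by unfold Ns; compute_degree!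
theorem deg_Ds (i : k) : (Ds (C i)).natDegree = 9 := by unfold Ds; compute_degree!
theorem deg_Nd (i : k) : (Nd (C i)).natDegree = 6 := by unfold Nd; compute_degree!
theorem deg_Dd (i : k) : (Dd (C i)).natDegree = 9 := by unfold Dd; compute_degree!

end Pool.Agent.Zk56.LS
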